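import Pool.Agent.K3h26.R6.Stm

/-!
# Every dimension `d ≥ 5` (MP_c4753b_co): the limit argument and the assembly
-/

set_option autoImplicit false

open MeasureTheory Filter Topology Set
open scoped ENNReal

namespace Pool.Agent.K3h26.R6

open H947TP

theorem Pt_bdd (p : ℕ) : Bornology.IsBounded (Pt p 1) := by
  refine (Metric.isBounded_closedBall (x := (0 : Fin (p + 5) → ℝ)) (r := 1)).subset ?_
  rintro x ⟨-, h2, h3⟩
  unfold ni at h2
  unfold nq at h3
  rw [max_lt_iff, max_lt_iff] at h2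
  rw [mem_closedBall_zero_iff, pi_norm_le_iff_of_nonneg zero_le_one]
  intro i
  rw [Real.norm_eq_abs]
  rcases Fin.eq_zero_or_eq_succ i with rfl | ⟨i, rfl⟩
  · exact h2.1.le
  rcases Fin.eq_zero_or_eq_succ i with rfl | ⟨i, rfl⟩
  · exact h2.2.1.le
  rcases Fin.eq_zero_or_eq_succ i with rfl | ⟨i, rfl⟩
  · exact h2.2.2.le
  have h := norm_le_pi_norm (yy x) i
  rw [Real.norm_eq_abs] at h
  unfold yy at h
  unfold yy at h3
  linarith

/-- the bound for all subgroups -/
theorem L7 (hL1 : S_L1) (hL2 : S_L2) (hL4 : S_L4) (hL6 : S_L6) (p : ℕ) (lam G G' : ℝ)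
    (h0 : 0 ≤ lam) (h1 : lam ≤ 1) (hG' : 0 ≤ G') (hGG : G < G')
    (hSS : ∀ L : AddSubgroup (Fin (p + 5) → ℝ), IsT L → SS lam L ≤ G) :
    ∃ ε0 : ℝ, 0 < ε0 ∧ ∀ ε, 0 < ε → ε < ε0 → ∀ Λ : AddSubgroup (Fin (p + 5) → ℝ),
    (∀ v ∈ Λ, v ≠ 0 → Sep lam ε v) →
    ∃ F : Set (Fin (p + 5) → ℝ), MeasurableSet F ∧ Bornology.IsBounded F ∧
      (∀ v ∈ Λ, v ≠ 0 → Disjoint F (tr v F)) ∧ ENNReal.ofReal (4 - G' * ε) ≤ volume F := by
  by_contra hcon
  push Not at hcon
  have hex : ∀ m : ℕ, ∃ e : ℝ, ∃ Λ : AddSubgroup (Fin (p + 5) → ℝ), 0 < e ∧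
      e < 1 / 10 * (1 / ((m : ℝ) + 1)) ∧ (∀ v ∈ Λ, v ≠ 0 → Sep lam e v) ∧
      ∀ F : Set (Fin (p + 5) → ℝ), MeasurableSet F → Bornology.IsBounded F →
        (∀ v ∈ Λ, v ≠ 0 → Disjoint F (tr v F)) → volume F < ENNReal.ofReal (4 - G' * e) := by
    intro m
    obtain ⟨e, he0, he1, Λ, hS, hF⟩ := hcon (1 / 10 * (1 / ((m : ℝ) + 1))) (by positivity)
    exact ⟨e, Λ, he0, he1, hS, hF⟩
  choose e Λ he0 he1 hS hF using hex
  set U : Ultrafilter ℕ := Filter.hyperfilter ℕ with hU
  have hUle : (U : Filter ℕ) ≤ atTop := Nat.hyperfilter_le_atTop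
  have hlim : Tendsto e U (𝓝 0) := by
    have ht : Tendsto (fun m : ℕ => 1 / 10 * (1 / ((m : ℝ) + 1))) atTop (𝓝 0) := by
      have := (tendsto_one_div_add_atTop_nhds_zero_nat (𝕜 := ℝ)).const_mul (1 / 10)
      simpa using this
    have h : Tendsto e atTop (𝓝 0) := squeeze_zero (fun m => (he0 m).le) (fun m => (he1 m).le) ht
    exact h.mono_left hUle
  have hcov := hL4 p lam G' e Λ U h0 h1 hG' he0 hlim hS hF
  have hsep := hL2 p lam e Λ U h0 h1 hlim hS
  have htile : IsT (Lim U Λ) := ⟨hsep, hcov⟩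
  have hG := hSS (Lim U Λ) htile
  obtain ⟨m, hm⟩ := (hL6 p lam (G' - G) e Λ U h0 h1 (by linarith) he0 hlim hS htile).exists
  have hem1 : e m ≤ 1 / 10 := by
    refine (he1 m).le.trans ?_
    have h2 : (1 : ℝ) / ((m : ℝ) + 1) ≤ 1 := by
      rw [div_le_one (by positivity)]
      have : (0 : ℝ) ≤ (m : ℝ) := by positivity
      linarith
    linarith
  obtain ⟨-, F, hFm, hFQ, -, hFd, hFv⟩ := hL1 p lam (e m) (Λ m) h0 h1 (he0 m) hem1 (hS m)
  have h7 := hF m F hFm ((Pt_bdd p).subset hFQ) hFd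
  have h8 : ENNReal.ofReal (4 - G' * e m) ≤ volume F := by
    refine le_trans (ENNReal.ofReal_le_ofReal ?_) hFv
    have h9 : e m * (SS lam (Lim U Λ) + (G' - G)) ≤ e m * G' :=
      mul_le_mul_of_nonneg_left (by linarith) (he0 m).le
    linarith
  exact absurd h7 (not_lt.mpr h8)

/-- the scales -/
noncomputable def scl (p : ℕ) (s : ℝ) (i : Fin (p + 5)) : ℝ :=
  if i = 0 then 2 * s else if i = 1 then 2 * s else if i = 2 then s else 1

theorem scl_prod (p : ℕ) (s : ℝ) : ∏ i, scl p s i = 4 * s ^ 3 := by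
  rw [Fin.prod_univ_succ, Fin.prod_univ_succ, Fin.prod_univ_succ]
  have h : ∀ l : Fin (p + 2), scl p s l.succ.succ.succ = 1 := by
    intro l
    unfold scl
    rw [if_neg, if_neg, if_neg]
    · intro h
      have := congrArg Fin.val h
      simp only [Fin.val_succ, Fin.coe_ofNat_eq_mod] at this
      rw [Nat.mod_eq_of_lt (by omega)] at this
      omega
    · intro h
      have := congrArg Fin.val h
      simp at this
    · exact Fin.succ_ne_zero _
  rw [Finset.prod_congr rfl fun l _ => h l]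
  have e1 : (Fin.succ 0 : Fin (p + 5)) = 1 := rfl
  have e2 : (Fin.succ (Fin.succ 0) : Fin (p + 5)) = 2 := rfl
  have n1 : (1 : Fin (p + 5)) ≠ 0 := by rw [← e1]; exact Fin.succ_ne_zero _
  have n2 : (2 : Fin (p + 5)) ≠ 0 := by rw [← e2]; exact Fin.succ_ne_zero _
  have n3 : (2 : Fin (p + 5)) ≠ 1 := by
    rw [← e2, ← e1]
    intro h
    exact Fin.succ_ne_zero _ (Fin.succ_injective _ h)
  have h0 : scl p s 0 = 2 * s := by
    unfold scl
    rw [if_pos rfl]
  have h1 : scl p s (Fin.succ 0) = 2 * s := by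
    rw [e1]
    unfold scl
    rw [if_neg n1, if_pos rfl]
  have h2 : scl p s (Fin.succ (Fin.succ 0)) = s := by
    rw [e2]
    unfold scl
    rw [if_neg n2, if_neg n3, if_pos rfl]
  rw [h0, h1, h2]
  simp
  ring

theorem core6 (hBODY : S_BODY) (hV3 : Pool.Agent.K3h26.R5.S_V3) (hTAU : S_TAU) (hL1 : S_L1)
    (hL2 : S_L2) (hL4 : S_L4) (hL6 : S_L6) (hINEQ : S_INEQ) (p : ℕ) :
    ∃ K : Set (Fin (p + 5) → ℝ), Convex ℝ K ∧ IsCompact K ∧
      (interior K).Nonempty ∧ (∀ x ∈ K, -x ∈ K) ∧ deltaL K < deltaT K := by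
  obtain ⟨lam, G, h0, h1, hG0, hG6, hSS⟩ := hINEQ p
  set G' : ℝ := (G + 6) / 2 with hG'
  have hG'1 : G < G' := by rw [hG']; linarith
  have hG'2 : G' < 6 := by rw [hG']; linarith
  have hG'0 : 0 ≤ G' := by linarith
  obtain ⟨ε0, hε0, hL⟩ := L7 hL1 hL2 hL4 hL6 p lam G G' h0 h1 hG'0 hG'1 hSS
  -- choose ε
  set ε : ℝ := min (ε0 / 2) (min (1 / 4) ((6 - G') / 6)) with hε
  have hεpos : 0 < ε := by
    refine lt_min (by linarith) (lt_min (by norm_num) (by linarith))
  have hεε0 : ε < ε0 := lt_of_le_of_lt (min_le_left _ _) (by linarith)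
  have hε4 : ε ≤ 1 / 4 := (min_le_right _ _).trans (min_le_left _ _)
  have hε6 : ε ≤ (6 - G') / 6 := (min_le_right _ _).trans (min_le_right _ _)
  obtain ⟨hconv, hcomp, hint, hsymm, hvol0, hvolt, hpack⟩ :=
    hBODY p lam ε h0 h1 hεpos (by linarith)
  refine ⟨body p lam ε, hconv, hcomp, hint, hsymm, ?_⟩
  have hpos1 : 0 < 4 - G' * ε := by nlinarith
  -- lattice packings
  have hLL : deltaL (body p lam ε) ≤ volume (body p lam ε) / ENNReal.ofReal (4 - G' * ε) := by
    unfold deltaL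
    refine iSup_le fun X => iSup_le fun hX => iSup_le fun hXp => ?_
    obtain ⟨bs, rfl⟩ := hX
    have hsep := (hpack _).1 hXp
    have hcar : ((latGroup bs : AddSubgroup (Fin (p + 5) → ℝ)) : Set (Fin (p + 5) → ℝ)) =
        {x | ∃ c : Fin (p + 5) → ℤ, x = ∑ i, (c i : ℝ) • bs i} := rfl
    rw [← hcar] at hsep ⊢
    obtain ⟨F, hFm, hFb, hFd, hFv⟩ := hL ε hεpos hεε0 (latGroup bs) (by
      intro v hv hv0
      have := hsep v hv 0 (latGroup bs).zero_mem hv0
      simpa using this)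
    have hF0 : volume F ≠ 0 := by
      intro h0
      rw [h0] at hFv
      have := ENNReal.ofReal_pos.2 hpos1
      exact absurd hFv (not_le.2 this)
    refine (V2 V1 (p + 5) _ F (latGroup bs) (by omega) hcomp hFm hFb hF0 hFd).trans ?_
    exact ENNReal.div_le_div_left hFv _
  -- the non-lattice packing
  set τ : (Fin (p + 5) → ℤ) → (Fin (p + 5) → ℝ) := tau (1 - ε / 2) with hτ
  have hsepτ : ∀ Z Z' : Fin (p + 5) → ℤ, Z ≠ Z' → Sep lam ε (τ Z - τ Z') := by
    intro Z Z' hZ
    exact hTAU p lam ε h0 h1 hεpos hε4 Z Z' hZ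
  have hyy0 : yy (0 : Fin (p + 5) → ℝ) = 0 := rfl
  have hinj : Function.Injective τ := by
    intro Z Z' h
    by_contra hne
    have hk := hsepτ Z Z' hne
    rw [h, sub_self] at hk
    unfold Sep n1 ni nq rh sy my at hk
    rw [hyy0] at hk
    simp only [Pi.zero_apply, abs_zero, max_self, add_zero, zero_div, mul_zero, zero_add,
      norm_zero, Finset.sum_const_zero] at hk
    rcases hk with hk | hk | hk
    · nlinarith
    · linarith
    · linarith
  have hpk : IsPacking (body p lam ε) (range τ) := by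
    rw [hpack]
    rintro _ ⟨Z, rfl⟩ _ ⟨Z', rfl⟩ hne
    exact hsepτ Z Z' (fun h => hne (by rw [h]))
  have hs0 : 0 < 1 - ε / 2 := by linarith
  have hT1 : volume (body p lam ε) / ENNReal.ofReal (4 * (1 - ε / 2) ^ 3) ≤
      deltaT (body p lam ε) := by
    have h3 := hV3 (p + 5) (body p lam ε) (scl p (1 - ε / 2)) 1 τ
      (by omega) hcomp hconv (by
        intro i
        unfold scl
        split_ifs <;> linarith) (by
        intro Z i
        have hp0 : (0 : ℤ) ≤ Z 2 % 2 := Int.emod_nonneg _ (by norm_num)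
        have hp1 : Z 2 % 2 < 2 := Int.emod_lt_of_pos _ (by norm_num)
        have hp : ((Z 2 % 2 : ℤ) : ℝ) = 0 ∨ ((Z 2 % 2 : ℤ) : ℝ) = 1 := by
          have : Z 2 % 2 = 0 ∨ Z 2 % 2 = 1 := by omega
          rcases this with h | h
          · left; rw [h]; norm_num
          · right; rw [h]; norm_num
        have key : ∀ z : ℝ, |(1 - ε / 2) * (2 * z + ((Z 2 % 2 : ℤ) : ℝ)) -
            2 * (1 - ε / 2) * z| ≤ 1 := by
          intro z
          have e : (1 - ε / 2) * (2 * z + ((Z 2 % 2 : ℤ) : ℝ)) - 2 * (1 - ε / 2) * z =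
              (1 - ε / 2) * ((Z 2 % 2 : ℤ) : ℝ) := by ring
          rw [e]
          rcases hp with h | h
          · rw [h]; norm_num
          · rw [h, mul_one, abs_of_pos hs0]; linarith
        have half : ∀ (z : ℝ) (P : Prop) [Decidable P],
            |z + (if P then (1 / 2 : ℝ) else 0) - 1 * z| ≤ 1 := by
          intro z P _
          have e : z + (if P then (1 / 2 : ℝ) else 0) - 1 * z = if P then (1 / 2 : ℝ) else 0 := by
            ring
          rw [e]
          split_ifs <;> norm_num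
        simp only [hτ, tau, scl]
        by_cases i0 : i = 0
        · subst i0
          have e := key (Z 0)
          rw [if_pos rfl, if_pos rfl]
          push_cast at e ⊢
          exact e
        rw [if_neg i0, if_neg i0]
        by_cases i1 : i = 1
        · subst i1
          have e := key (Z 1)
          rw [if_pos rfl, if_pos rfl]
          push_cast at e ⊢
          exact e
        rw [if_neg i1, if_neg i1]
        by_cases i2 : i = 2
        · subst i2
          rw [if_pos rfl, if_pos rfl]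
          simp
        rw [if_neg i2, if_neg i2]
        by_cases i3 : i = 3
        · subst i3
          rw [if_pos rfl]
          exact half _ _
        rw [if_neg i3]
        exact half _ _) hinj hpk
    rw [scl_prod] at h3
    refine h3.trans ?_
    unfold deltaT
    exact le_iSup_of_le (range τ) (le_iSup_of_le hpk le_rfl)
  refine lt_of_le_of_lt hLL (lt_of_lt_of_le ?_ hT1)
  have hlt : ENNReal.ofReal (4 * (1 - ε / 2) ^ 3) < ENNReal.ofReal (4 - G' * ε) := by
    rw [ENNReal.ofReal_lt_ofReal_iff hpos1]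
    nlinarith [sq_nonneg ε, mul_pos hεpos hεpos, mul_pos hεpos (mul_pos hεpos hεpos)]
  exact ENNReal.div_lt_div_left hvol0 hvolt hlt

end Pool.Agent.K3h26.R6
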