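import Pool.Agent.K3h26.R6.FinOf
import Pool.Agent.K3h67.R6.L6

/-!
# Every dimension `d ≥ 5` (MP_c4753b_co): the main theorem
-/

set_option autoImplicit false

open MeasureTheory Filter Topology Set
open scoped ENNReal

namespace Pool.Agent.K3h26.R6

open H947TP

theorem main6 (p : ℕ) : ∃ K : Set (Fin (p + 5) → ℝ), Convex ℝ K ∧ IsCompact K ∧
      (interior K).Nonempty ∧ (∀ x ∈ K, -x ∈ K) ∧ deltaL K < deltaT K :=
  main6_of (Pool.Agent.K3h67.R6.t_L6 Pool.Agent.K3h99.R6.t_OVH Pool.Agent.K3h66.R6.t_OVS tt_SL) p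

theorem main_ge (d : ℕ) (hd : 5 ≤ d) : ∃ K : Set (Fin d → ℝ), Convex ℝ K ∧ IsCompact K ∧
      (interior K).Nonempty ∧ (∀ x ∈ K, -x ∈ K) ∧ deltaL K < deltaT K := by
  obtain ⟨p, rfl⟩ : ∃ p, d = p + 5 := ⟨d - 5, by omega⟩
  exact main6 p

end Pool.Agent.K3h26.R6
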