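import Pool.Agent.K3h26.R6.Stm

/-!
# Every dimension `d ≥ 5` (MP_c4753b_co): the bound for the lattice tilings
-/

set_option autoImplicit false

open MeasureTheory Filter Topology Set
open scoped ENNReal

namespace Pool.Agent.K3h26.R6

open H947TP

variable {p : ℕ}

theorem my_nonneg (v : Fin (p + 5) → ℝ) : 0 ≤ my v := (abs_nonneg _).trans (le_max_left _ _)

theorem yy_le (v : Fin (p + 5) → ℝ) (l : Fin (p + 2)) : |yy v l| ≤ nq v := by
  have h := norm_le_pi_norm (yy v) l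
  rwa [Real.norm_eq_abs] at h

theorem my_le (v : Fin (p + 5) → ℝ) : my v ≤ nq v := by
  unfold my
  have h3 := yy_le v 0
  have h4 := yy_le v 1
  exact max_le h3 h4

theorem mu_nonneg {v : Fin (p + 5) → ℝ} (h : nq v < 1) : 0 ≤ mu v := by
  unfold mu
  exact Finset.prod_nonneg fun l _ => by linarith [yy_le v l]

theorem WW_sep {L : AddSubgroup (Fin (p + 5) → ℝ)} (hL : IsT L) (a b c : ℝ) :
    ∀ v ∈ WW L a b c, ∀ v' ∈ WW L a b c, v ≠ v' → ∃ l, 1 ≤ |yy v l - yy v' l| := by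
  rintro v ⟨h1, -, h2, h3, h4⟩ v' ⟨h1', -, h2', h3', h4'⟩ hne
  have h0 : v - v' ≠ 0 := sub_ne_zero.2 hne
  have e0 : (v - v') 0 = 0 := by rw [Pi.sub_apply, h2, h2', sub_self]
  have e1 : (v - v') 1 = 0 := by rw [Pi.sub_apply, h3, h3', sub_self]
  have e2 : (v - v') 2 = 0 := by rw [Pi.sub_apply, h4, h4', sub_self]
  rcases hL.1 (v - v') (L.sub_mem h1 h1') h0 with h | h | h
  · unfold n1 at h
    rw [e0, e1, e2] at h
    norm_num at h
  · unfold ni at h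
    rw [e0, e1, e2] at h
    norm_num at h
  · by_contra hcon
    push Not at hcon
    unfold nq at h
    rw [← not_lt] at h
    apply h
    rw [pi_norm_lt_iff one_pos]
    intro l
    rw [Real.norm_eq_abs]
    exact hcon l

theorem EE_add (L : AddSubgroup (Fin (p + 5) → ℝ)) (a b c : ℝ) (hfin : (WW L a b c).Finite)
    (hone : ∑ᶠ v ∈ WW L a b c, mu v = 1) (lam : ℝ) :
    EE L a b c (rh lam) = (1 - lam) / 2 + lam * EE L a b c my := by
  unfold EE
  rw [finsum_mem_eq_finite_toFinset_sum _ hfin] at hone ⊢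
  rw [finsum_mem_eq_finite_toFinset_sum _ hfin, Finset.mul_sum]
  have : (1 - lam) / 2 = ∑ v ∈ hfin.toFinset, mu v * ((1 - lam) / 2) := by
    rw [← Finset.sum_mul, hone, one_mul]
  rw [this, ← Finset.sum_add_distrib]
  refine Finset.sum_congr rfl fun v _ => ?_
  unfold rh
  ring

theorem EE_my_le (L : AddSubgroup (Fin (p + 5) → ℝ)) (a b c : ℝ) (hfin : (WW L a b c).Finite)
    (hone : ∑ᶠ v ∈ WW L a b c, mu v = 1) : EE L a b c my ≤ 1 := by
  unfold EE
  rw [finsum_mem_eq_finite_toFinset_sum _ hfin] at hone ⊢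
  rw [← hone]
  refine Finset.sum_le_sum fun v hv => ?_
  rw [Set.Finite.mem_toFinset] at hv
  exact mul_le_of_le_one_right (mu_nonneg hv.2.1) ((my_le v).trans hv.2.1.le)

theorem ineq (hMASS : S_MASS) (hFP : S_FP) (hHX : S_HX) : S_INEQ := by
  intro p
  obtain ⟨η, hη, hHX'⟩ := hHX p
  obtain ⟨δ, hδ, hFP'⟩ := hFP p η hη
  set δ' : ℝ := min δ 1 with hδ'
  have hd0 : 0 < δ' := lt_min hδ one_pos
  have hd1 : δ' ≤ 1 := min_le_right _ _
  have hd2 : δ' ≤ δ := min_le_left _ _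
  refine ⟨δ' / 18, 6 - δ' / 1000, by positivity, by linarith, by linarith, by linarith,
    fun L hL => ?_⟩
  have m1 := hMASS p L hL 0 0 1
  have m2 := hMASS p L hL 1 1 (-1)
  have m3 := hMASS p L hL 0 (-1) 1
  have m4 := hMASS p L hL 1 0 (-1)
  have m5 := hMASS p L hL 1 0 0
  have m6 := hMASS p L hL 0 1 0
  have m7 := hMASS p L hL (-1) (-1) 2
  norm_num at m1 m2 m3 m4 m5 m6 m7
  have fp : ∀ a b c : ℝ, (WW L a b c).Finite → ∑ᶠ v ∈ WW L a b c, mu v = 1 →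
      EE L a b c sy ≤ 1 / 2 ∧ ((1 - δ') / 2 ≤ EE L a b c sy → ∀ σ : Fin (p + 2) → ℝ,
        (∀ l, σ l = 1 ∨ σ l = -1) →
        ∃ v ∈ WW L a b c, ∀ l, |yy v l - σ l / 2| ≤ η) := by
    intro a b c hf h1
    obtain ⟨h2, h3⟩ := hFP' (WW L a b c) hf (fun v hv => hv.2.1) (WW_sep hL a b c) h1
    exact ⟨h2, fun h4 => h3 (le_trans (by linarith) h4)⟩
  obtain ⟨f5, g5⟩ := fp 2 0 0 m5.1 m5.2
  obtain ⟨f6, g6⟩ := fp 0 2 0 m6.1 m6.2
  obtain ⟨f7, g7⟩ := fp 0 0 2 m7.1 m7.2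
  unfold SS
  rw [EE_add L _ _ _ m1.1 m1.2, EE_add L _ _ _ m2.1 m2.2, EE_add L _ _ _ m3.1 m3.2,
    EE_add L _ _ _ m4.1 m4.2]
  have l1 := EE_my_le L _ _ _ m1.1 m1.2
  have l2 := EE_my_le L _ _ _ m2.1 m2.2
  have l3 := EE_my_le L _ _ _ m3.1 m3.2
  have l4 := EE_my_le L _ _ _ m4.1 m4.2
  by_cases h5 : (1 - δ') / 2 ≤ EE L 2 0 0 sy
  · by_cases h6 : (1 - δ') / 2 ≤ EE L 0 2 0 sy
    · by_cases h7 : (1 - δ') / 2 ≤ EE L 0 0 2 sy
      · have hx := hHX' L hL (by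
          rintro a b c (⟨rfl, rfl, rfl⟩ | ⟨rfl, rfl, rfl⟩ | ⟨rfl, rfl, rfl⟩) σ hσ
          · exact g5 h5 σ hσ
          · exact g6 h6 σ hσ
          · exact g7 h7 σ hσ)
        have x1 := hx 1 1 1 (by norm_num) (by norm_num) (by norm_num)
        have x2 := hx 1 1 (-1) (by norm_num) (by norm_num) (by norm_num)
        have x3 := hx 1 (-1) 1 (by norm_num) (by norm_num) (by norm_num)
        have x4 := hx 1 (-1) (-1) (by norm_num) (by norm_num) (by norm_num)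
        nlinarith
      · push Not at h7
        nlinarith
    · push Not at h6
      nlinarith
  · push Not at h5
    nlinarith

end Pool.Agent.K3h26.R6
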