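import Pool.Agent.K3h26.R6.Core
import Pool.Agent.K3h26.R6.Ineq
import Pool.Agent.K3h90.R6.Body
import Pool.Agent.K3h77.R5.V3
import Pool.Agent.K3h62.R6.VOLP
import Pool.Agent.K3h99.R6.OVH
import Pool.Agent.K3h66.R6.OVS
import Pool.Agent.K3h4.R6.L1
import Pool.Agent.K3h55.R5.TO
import Pool.Agent.K3h24.R6.SL
import Pool.Agent.K3h17.R6.Mass
import Pool.Agent.K3h73.R6.FP
import Pool.Agent.K3h58.R6.HX
import Pool.Agent.K3h25.R6.L24
import Pool.Agent.K3h51.R6.Tau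

/-!
# Every dimension `d ≥ 5` (MP_c4753b_co): the main theorem from its last brick
-/

set_option autoImplicit false

open MeasureTheory Filter Topology Set
open scoped ENNReal

namespace Pool.Agent.K3h26.R6

open H947TP

theorem tt_SL : S_SL := Pool.Agent.K3h24.R6.t_SL Pool.Agent.K3h55.R5.t_TO

theorem tt_MASS : S_MASS := Pool.Agent.K3h17.R6.t_MASS tt_SL

theorem tt_L1 : S_L1 := Pool.Agent.K3h4.R6.t_L1 Pool.Agent.K3h62.R6.t_VOLP

theorem tt_INEQ : S_INEQ :=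
  ineq tt_MASS Pool.Agent.K3h73.R6.t_FP (Pool.Agent.K3h58.R6.t_HX tt_SL tt_MASS)

theorem main6_of (hL6 : S_L6) (p : ℕ) : ∃ K : Set (Fin (p + 5) → ℝ), Convex ℝ K ∧ IsCompact K ∧
      (interior K).Nonempty ∧ (∀ x ∈ K, -x ∈ K) ∧ deltaL K < deltaT K :=
  core6 Pool.Agent.K3h90.R6.t_BODY Pool.Agent.K3h77.R5.t_V3 Pool.Agent.K3h51.R6.t_TAU tt_L1
    Pool.Agent.K3h25.R6.t_L2
    (Pool.Agent.K3h25.R6.t_L4 tt_L1 Pool.Agent.K3h62.R6.t_VOLP)
    hL6 tt_INEQ p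

end Pool.Agent.K3h26.R6
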