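import Pool.Agent.K3h26.R5.Stm

/-!
# Every dimension `d ≥ 5` (MP_c4753b_co): definitions and statements of the bricks

`d = p + 5`. The body is a truncated octahedron times a cube `[-1/2,1/2]^(p+2)` whose faces are
pushed in slightly; the translates form a perturbation of the tiling with centres `(l, t(l) + z)`,
`l` in the body centred cubic lattice, `z ∈ ℤ^(p+2)`, where `t(l)` runs through `(0,0,…,0)`,
`(1/2,0,…,0)`, `(1/2,1/2,…,1/2)`, `(0,1/2,…,1/2)` with the index of `l` modulo `4`.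
(In `Pool.Agent.K3h26.R5.Stm` the same for `p = 0`.)
-/

set_option autoImplicit false

open MeasureTheory Filter Topology Set
open scoped ENNReal

namespace Pool.Agent.K3h26.R6

open H947TP

variable {p : ℕ}

/-! ## The gauges and the body -/

/-- the last `p + 2` coordinates -/
def yy (v : Fin (p + 5) → ℝ) (l : Fin (p + 2)) : ℝ := v l.succ.succ.succ

/-- the `ℓ^1` norm of the first three coordinates -/
noncomputable def n1 (v : Fin (p + 5) → ℝ) : ℝ := |v 0| + |v 1| + |v 2|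

/-- the maximum norm of the first three coordinates -/
noncomputable def ni (v : Fin (p + 5) → ℝ) : ℝ := max |v 0| (max |v 1| |v 2|)

/-- the maximum norm of the last `p + 2` coordinates -/
noncomputable def nq (v : Fin (p + 5) → ℝ) : ℝ := ‖yy v‖

/-- the maximum norm of the coordinates `3`, `4` -/
noncomputable def my (v : Fin (p + 5) → ℝ) : ℝ := max |v 3| |v 4|

/-- the average of the absolute values of the last coordinates: the reward at the square faces -/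
noncomputable def sy (v : Fin (p + 5) → ℝ) : ℝ := (∑ l, |yy v l|) / ((p : ℝ) + 2)

/-- the reward at the hexagonal faces -/
noncomputable def rh (lam : ℝ) (v : Fin (p + 5) → ℝ) : ℝ := (1 - lam) / 2 + lam * my v

/-- the convex body -/
def body (p : ℕ) (lam ε : ℝ) : Set (Fin (p + 5) → ℝ) :=
  {x | n1 (fun i => 2 * x i) / 3 + ε * rh lam (fun i => 2 * x i) ≤ 1 ∧
    ni (fun i => 2 * x i) / 2 + ε * sy (fun i => 2 * x i) ≤ 1 ∧ nq (fun i => 2 * x i) ≤ 1}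

/-- `v` separates: translates of the body by `x` and `x + v` do not overlap -/
def Sep (lam ε : ℝ) (v : Fin (p + 5) → ℝ) : Prop :=
  1 ≤ n1 v / 3 + ε * rh lam v ∨ 1 ≤ ni v / 2 + ε * sy v ∨ 1 ≤ nq v

/-- brick BODY -/
def S_BODY : Prop := ∀ (p : ℕ) (lam ε : ℝ), 0 ≤ lam → lam ≤ 1 → 0 < ε → ε ≤ 1 →
  Convex ℝ (body p lam ε) ∧ IsCompact (body p lam ε) ∧ (interior (body p lam ε)).Nonempty ∧
  (∀ x ∈ body p lam ε, -x ∈ body p lam ε) ∧ volume (body p lam ε) ≠ 0 ∧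
  volume (body p lam ε) ≠ ⊤ ∧
  ∀ X : Set (Fin (p + 5) → ℝ), IsPacking (body p lam ε) X ↔
    ∀ x ∈ X, ∀ y ∈ X, x ≠ y → Sep lam ε (x - y)

/-! ## The non-lattice packing -/

/-- the index modulo `4` -/
def idx (Z : Fin (p + 5) → ℤ) : ℤ := (2 * Z 0 + 2 * Z 1 + 2 * (Z 2 % 2) + Z 2) % 4

/-- the centres -/
noncomputable def tau (s : ℝ) (Z : Fin (p + 5) → ℤ) (i : Fin (p + 5)) : ℝ :=
  if i = 0 then s * ((2 * Z 0 + Z 2 % 2 : ℤ) : ℝ)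
  else if i = 1 then s * ((2 * Z 1 + Z 2 % 2 : ℤ) : ℝ)
  else if i = 2 then s * (Z 2 : ℝ)
  else if i = 3 then (Z 3 : ℝ) + (if idx Z = 1 ∨ idx Z = 2 then 1 / 2 else 0)
  else (Z i : ℝ) + (if idx Z = 2 ∨ idx Z = 3 then 1 / 2 else 0)

/-- brick TAU -/
def S_TAU : Prop := ∀ (p : ℕ) (lam ε : ℝ), 0 ≤ lam → lam ≤ 1 → 0 < ε → ε ≤ 1 / 4 →
  ∀ Z Z' : Fin (p + 5) → ℤ, Z ≠ Z' → Sep lam ε (tau (1 - ε / 2) Z - tau (1 - ε / 2) Z')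

/-! ## The tile, its volume and its overlaps -/

/-- the open tile (truncated octahedron times cube), scaled by `t` -/
def Pt (p : ℕ) (t : ℝ) : Set (Fin (p + 5) → ℝ) := {x | n1 x < 3 / 2 * t ∧ ni x < t ∧ nq x < t / 2}

/-- the weight -/
noncomputable def mu (v : Fin (p + 5) → ℝ) : ℝ := ∏ l, (1 - |yy v l|)

/-- brick VOLP -/
def S_VOLP : Prop := ∀ (p : ℕ) (t : ℝ), 0 < t → ENNReal.ofReal (4 * t ^ (p + 5)) ≤ volume (Pt p t)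

/-- brick OVH: the overlap at a hexagonal face -/
def S_OVH : Prop := ∀ (p : ℕ) (v : Fin (p + 5) → ℝ) (τ : ℝ), n1 v < 3 → ni v < 2 → nq v < 1 →
  τ = 1 - n1 v / 3 → τ ≤ 1 / 10 →
  volume (Pt p 1 ∩ tr v (Pt p 1)) ≤ ENNReal.ofReal (mu v * (9 / 4 * τ * (1 + 10 * τ)))

/-- brick OVS: the overlap at a square face -/
def S_OVS : Prop := ∀ (p : ℕ) (v : Fin (p + 5) → ℝ) (τ : ℝ), n1 v < 3 → ni v < 2 → nq v < 1 →
  τ = 1 - ni v / 2 → τ ≤ 1 / 10 →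
  volume (Pt p 1 ∩ tr v (Pt p 1)) ≤ ENNReal.ofReal (mu v * (τ * (1 + 10 * τ)))

/-- the overlap with the translate by `v` -/
noncomputable def ov (v : Fin (p + 5) → ℝ) : ℝ := (volume (Pt p 1 ∩ tr v (Pt p 1))).toReal

/-- a functional that distinguishes the neighbours from their negatives -/
def psi (v : Fin (p + 5) → ℝ) : ℝ := 4 * v 0 + 2 * v 1 + v 2

/-- the vectors of `Λ` whose translates of the tile overlap the tile, one of each pair -/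
def PP (Λ : AddSubgroup (Fin (p + 5) → ℝ)) : Set (Fin (p + 5) → ℝ) :=
  {v | v ∈ Λ ∧ v ≠ 0 ∧ n1 v < 3 ∧ ni v < 2 ∧ nq v < 1 ∧ 0 ≤ psi v}

/-- brick L1: the set `F` -/
def S_L1 : Prop := ∀ (p : ℕ) (lam ε : ℝ) (Λ : AddSubgroup (Fin (p + 5) → ℝ)), 0 ≤ lam → lam ≤ 1 →
  0 < ε → ε ≤ 1 / 10 → (∀ v ∈ Λ, v ≠ 0 → Sep lam ε v) →
  (PP Λ).Finite ∧ ∃ F : Set (Fin (p + 5) → ℝ), MeasurableSet F ∧ F ⊆ Pt p 1 ∧
    Pt p (1 - 2 * ε) ⊆ F ∧ (∀ v ∈ Λ, v ≠ 0 → Disjoint F (tr v F)) ∧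
    ENNReal.ofReal (4 - ∑ᶠ v ∈ PP Λ, ov v) ≤ volume F

/-! ## Lattice tilings by the tile -/

/-- `L` is a lattice tiling by the tile (separation and covering) -/
def IsT (L : AddSubgroup (Fin (p + 5) → ℝ)) : Prop :=
  (∀ v ∈ L, v ≠ 0 → 3 ≤ n1 v ∨ 2 ≤ ni v ∨ 1 ≤ nq v) ∧
  ∀ x : Fin (p + 5) → ℝ, ∃ v ∈ L, n1 (x - v) ≤ 3 / 2 ∧ ni (x - v) ≤ 1 ∧ nq (x - v) ≤ 1 / 2

/-- brick SL: the layers of a lattice tiling -/
def S_SL : Prop := ∀ (p : ℕ) (L : AddSubgroup (Fin (p + 5) → ℝ)), IsT L →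
  (∀ v ∈ L, nq v < 1 → ∃ i j k : ℤ, v 0 = 2 * i + k ∧ v 1 = 2 * j + k ∧ v 2 = k) ∧
  (∀ (i j k : ℤ) (a : Fin (p + 2) → ℝ), (∀ l, -(1 / 2) ≤ a l ∧ a l < 1 / 2) →
    ∃ v ∈ L, v 0 = 2 * i + k ∧ v 1 = 2 * j + k ∧ v 2 = k ∧
      ∀ l, -(1 / 2) ≤ a l - yy v l ∧ a l - yy v l < 1 / 2)

/-- the vectors of `L` over `(a, b, c)` whose last coordinates are less than `1` -/
def WW (L : AddSubgroup (Fin (p + 5) → ℝ)) (a b c : ℝ) : Set (Fin (p + 5) → ℝ) :=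
  {v | v ∈ L ∧ nq v < 1 ∧ v 0 = a ∧ v 1 = b ∧ v 2 = c}

/-- the mean of `f` over the contacts over `(a, b, c)` -/
noncomputable def EE (L : AddSubgroup (Fin (p + 5) → ℝ)) (a b c : ℝ)
    (f : (Fin (p + 5) → ℝ) → ℝ) : ℝ := ∑ᶠ v ∈ WW L a b c, mu v * f v

/-- the sum over the seven pairs of faces of the mean rewards, with the areas as weights -/
noncomputable def SS (lam : ℝ) (L : AddSubgroup (Fin (p + 5) → ℝ)) : ℝ :=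
  9 / 4 * (EE L 1 1 1 (rh lam) + EE L 1 1 (-1) (rh lam) + EE L 1 (-1) 1 (rh lam) +
    EE L 1 (-1) (-1) (rh lam)) + (EE L 2 0 0 sy + EE L 0 2 0 sy + EE L 0 0 2 sy)

/-- brick MASS: the weights have sum `1` -/
def S_MASS : Prop := ∀ (p : ℕ) (L : AddSubgroup (Fin (p + 5) → ℝ)), IsT L → ∀ i j k : ℤ,
  (WW L (2 * i + k) (2 * j + k) k).Finite ∧
  ∑ᶠ v ∈ WW L (2 * i + k) (2 * j + k) k, mu v = 1

/-- brick FP -/
def S_FP : Prop := ∀ (p : ℕ) (η : ℝ), 0 < η → ∃ δ : ℝ, 0 < δ ∧ ∀ W : Set (Fin (p + 5) → ℝ),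
  W.Finite → (∀ v ∈ W, nq v < 1) →
  (∀ v ∈ W, ∀ v' ∈ W, v ≠ v' → ∃ l, 1 ≤ |yy v l - yy v' l|) →
  ∑ᶠ v ∈ W, mu v = 1 →
  ∑ᶠ v ∈ W, mu v * sy v ≤ 1 / 2 ∧
  ((1 - δ) / 2 ≤ ∑ᶠ v ∈ W, mu v * sy v → ∀ σ : Fin (p + 2) → ℝ, (∀ l, σ l = 1 ∨ σ l = -1) →
    ∃ v ∈ W, ∀ l, |yy v l - σ l / 2| ≤ η)

/-- brick HX: if the contacts at the square faces are close to `(±1/2, …, ±1/2)`, the mean of `my`
over the hexagonal faces is small -/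
def S_HX : Prop := ∀ p : ℕ, ∃ η : ℝ, 0 < η ∧ ∀ L : AddSubgroup (Fin (p + 5) → ℝ), IsT L →
  (∀ a b c : ℝ, ((a = 2 ∧ b = 0 ∧ c = 0) ∨ (a = 0 ∧ b = 2 ∧ c = 0) ∨ (a = 0 ∧ b = 0 ∧ c = 2)) →
    ∀ σ : Fin (p + 2) → ℝ, (∀ l, σ l = 1 ∨ σ l = -1) →
    ∃ v ∈ WW L a b c, ∀ l, |yy v l - σ l / 2| ≤ η) →
  ∀ a b c : ℝ, |a| = 1 → |b| = 1 → |c| = 1 → EE L a b c my ≤ 49 / 100

/-- the bound for the lattice tilings -/
def S_INEQ : Prop := ∀ p : ℕ, ∃ lam G : ℝ, 0 ≤ lam ∧ lam ≤ 1 ∧ 0 ≤ G ∧ G < 6 ∧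
  ∀ L : AddSubgroup (Fin (p + 5) → ℝ), IsT L → SS lam L ≤ G

/-! ## The limit argument -/

/-- brick L2 -/
def S_L2 : Prop := ∀ (p : ℕ) (lam : ℝ) (ε : ℕ → ℝ) (Λ : ℕ → AddSubgroup (Fin (p + 5) → ℝ))
  (U : Ultrafilter ℕ), 0 ≤ lam → lam ≤ 1 → Tendsto ε U (𝓝 0) →
  (∀ m, ∀ v ∈ Λ m, v ≠ 0 → Sep lam (ε m) v) →
  ∀ v ∈ Lim U Λ, v ≠ 0 → 3 ≤ n1 v ∨ 2 ≤ ni v ∨ 1 ≤ nq v

/-- brick L4 -/
def S_L4 : Prop := ∀ (p : ℕ) (lam G : ℝ) (ε : ℕ → ℝ) (Λ : ℕ → AddSubgroup (Fin (p + 5) → ℝ))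
  (U : Ultrafilter ℕ), 0 ≤ lam → lam ≤ 1 → 0 ≤ G → (∀ m, 0 < ε m) → Tendsto ε U (𝓝 0) →
  (∀ m, ∀ v ∈ Λ m, v ≠ 0 → Sep lam (ε m) v) →
  (∀ m, ∀ F : Set (Fin (p + 5) → ℝ), MeasurableSet F → Bornology.IsBounded F →
    (∀ v ∈ Λ m, v ≠ 0 → Disjoint F (tr v F)) → volume F < ENNReal.ofReal (4 - G * ε m)) →
  ∀ x : Fin (p + 5) → ℝ, ∃ v ∈ Lim U Λ,
    n1 (x - v) ≤ 3 / 2 ∧ ni (x - v) ≤ 1 ∧ nq (x - v) ≤ 1 / 2

/-- brick L6 -/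
def S_L6 : Prop := ∀ (p : ℕ) (lam η : ℝ) (ε : ℕ → ℝ) (Λ : ℕ → AddSubgroup (Fin (p + 5) → ℝ))
  (U : Ultrafilter ℕ), 0 ≤ lam → lam ≤ 1 → 0 < η → (∀ m, 0 < ε m) → Tendsto ε U (𝓝 0) →
  (∀ m, ∀ v ∈ Λ m, v ≠ 0 → Sep lam (ε m) v) → IsT (Lim U Λ) →
  ∀ᶠ m in U, ∑ᶠ v ∈ PP (Λ m), ov v ≤ ε m * (SS lam (Lim U Λ) + η)

end Pool.Agent.K3h26.R6
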